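import Mathlib

/-!
# Project LG: Gauss's lemma and the radical of a polynomial
-/

set_option autoImplicit false

open Polynomial

namespace Pool.Agent.H8.LG

section gauss

variable {K : Type*} [Field K] (v : AddValuation K (WithTop ℤ))

theorem ord_sum' {ι : Type*} (s : Finset ι) (f : ι → K) {x : WithTop ℤ} (h : ∀ i ∈ s, x ≤ v (f i)) :
    x ≤ v (∑ i ∈ s, f i) := by
  classical
  induction s using Finset.induction_on with
  | empty => rw [Finset.sum_empty, v.map_zero]; exact le_top
  | insert a s ha ih =>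
    rw [Finset.sum_insert ha]
    exact le_trans (le_min (h a (Finset.mem_insert_self a s))
      (ih fun i hi => h i (Finset.mem_insert_of_mem hi))) (v.map_add _ _)

/-- Gauss's lemma: if `Q` is primitive and `Q R` is integral then `R` is integral. -/
theorem gauss {Q R : K[X]} (hQ : ∀ i, 0 ≤ v (Q.coeff i)) (h0 : ∃ i, v (Q.coeff i) = 0)
    (h : ∀ i, 0 ≤ v ((Q * R).coeff i)) : ∀ i, 0 ≤ v (R.coeff i) := by
  classical
  by_contra hcon
  push Not at hcon
  obtain ⟨j, hj⟩ := hcon
  have hjs : j ∈ R.support := by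
    rw [mem_support_iff]
    intro h1
    rw [h1, v.map_zero] at hj
    exact absurd hj (not_lt.2 le_top)
  obtain ⟨j1, hj1, hmin⟩ := R.support.exists_min_image (fun i => v (R.coeff i)) ⟨j, hjs⟩
  have hmin' : ∀ i, v (R.coeff j1) ≤ v (R.coeff i) := by
    intro i
    by_cases hi : i ∈ R.support
    · exact hmin i hi
    · rw [notMem_support_iff.1 hi, v.map_zero]
      exact le_top
  have hj1' : v (R.coeff j1) < 0 := lt_of_le_of_lt (hmin' j) hj
  obtain ⟨m, hm⟩ : ∃ m : ℤ, v (R.coeff j1) = m := by
    induction h2 : v (R.coeff j1) using WithTop.recTopCoe with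
    | top => rw [h2] at hj1'; exact absurd hj1' (not_lt.2 le_top)
    | coe m => exact ⟨m, rfl⟩
  have hm0 : m < 0 := by
    rw [hm] at hj1'
    exact_mod_cast hj1'
  have hex : ∃ i, v (R.coeff i) = (m : WithTop ℤ) := ⟨j1, hm⟩
  rw [hm] at hmin'
  -- the smallest indices
  have hstep : ∀ (x : WithTop ℤ) (a : ℤ), (a : WithTop ℤ) ≤ x → x ≠ a → ((a + 1 : ℤ) : WithTop ℤ) ≤ x := by
    intro x a h1 h2
    induction x using WithTop.recTopCoe with
    | top => exact le_top
    | coe b =>
      rw [WithTop.coe_le_coe] at h1 ⊢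
      have : b ≠ a := fun h => h2 (by rw [h])
      omega
  have hR : ∀ i, i < Nat.find hex → ((m + 1 : ℤ) : WithTop ℤ) ≤ v (R.coeff i) :=
    fun i hi => hstep _ _ (hmin' i) (Nat.find_min hex hi)
  have hQ' : ∀ i, i < Nat.find h0 → ((0 + 1 : ℤ) : WithTop ℤ) ≤ v (Q.coeff i) :=
    fun i hi => hstep _ 0 (hQ i) (Nat.find_min h0 hi)
  have hj0 := Nat.find_spec hex
  have hi0 := Nat.find_spec h0
  generalize Nat.find hex = j0 at hR hj0
  generalize Nat.find h0 = i0 at hQ' hi0
  have h1 := h (i0 + j0)
  rw [coeff_mul] at h1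
  have hmem : (i0, j0) ∈ Finset.HasAntidiagonal.antidiagonal (i0 + j0) :=
    Finset.HasAntidiagonal.mem_antidiagonal.2 rfl
  rw [← Finset.add_sum_erase _ _ hmem] at h1
  have h2 : ((m + 1 : ℤ) : WithTop ℤ) ≤
      v (∑ x ∈ (Finset.HasAntidiagonal.antidiagonal (i0 + j0)).erase (i0, j0), Q.coeff x.1 * R.coeff x.2) := by
    refine ord_sum' v _ _ fun x hx => ?_
    rw [Finset.mem_erase, Finset.HasAntidiagonal.mem_antidiagonal] at hx
    rw [v.map_mul]
    rcases lt_or_ge x.1 i0 with h3 | h3
    · have h4 := add_le_add (hQ' x.1 h3) (hmin' x.2)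
      refine le_trans ?_ h4
      rw [← WithTop.coe_add, WithTop.coe_le_coe]
      omega
    · have h5 : x.2 < j0 := by
        rcases lt_or_eq_of_le h3 with h6 | h6
        · omega
        · exact absurd (Prod.ext h6.symm (by omega)) hx.1
      have h4 := add_le_add (hQ x.1) (hR x.2 h5)
      rwa [zero_add] at h4
  have h3 : v (Q.coeff i0 * R.coeff j0) = m := by rw [v.map_mul, hi0, hj0, zero_add]
  have h4 : ((m + 1 : ℤ) : WithTop ℤ) ≤ v (Q.coeff i0 * R.coeff j0) := by
    have h5 : Q.coeff i0 * R.coeff j0 = (Q.coeff i0 * R.coeff j0 +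
        ∑ x ∈ (Finset.HasAntidiagonal.antidiagonal (i0 + j0)).erase (i0, j0), Q.coeff x.1 * R.coeff x.2) +
        -(∑ x ∈ (Finset.HasAntidiagonal.antidiagonal (i0 + j0)).erase (i0, j0), Q.coeff x.1 * R.coeff x.2) := by
      ring
    rw [h5]
    refine le_trans (le_min ?_ ?_) (v.map_add _ _)
    · refine le_trans ?_ h1
      have : ((m + 1 : ℤ) : WithTop ℤ) ≤ ((0 : ℤ) : WithTop ℤ) := WithTop.coe_le_coe.2 (by omega)
      simpa using this
    · rw [v.map_neg]
      exact h2
  rw [h3, WithTop.coe_le_coe] at h4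
  omega

/-- If `Q` is primitive, `Q R` is integral, `w` is integral and `(Q R) (w)` is a unit then `Q (w)` is a unit. -/
theorem gauss_unit {Q R : K[X]} (hQ : ∀ i, 0 ≤ v (Q.coeff i)) (h0 : ∃ i, v (Q.coeff i) = 0)
    (h : ∀ i, 0 ≤ v ((Q * R).coeff i)) {w : K} (hw : 0 ≤ v w) (hu : v ((Q * R).eval w) = 0) :
    v (Q.eval w) = 0 := by
  have h1 := gauss v hQ h0 h
  have h2 : ∀ S : K[X], (∀ i, 0 ≤ v (S.coeff i)) → 0 ≤ v (S.eval w) := by
    intro S hS
    rw [eval_eq_sum, Polynomial.sum]
    refine ord_sum' v _ _ fun i _ => ?_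
    rw [v.map_mul, v.map_pow]
    exact add_nonneg (hS i) (nsmul_nonneg hw i)
  rw [eval_mul, v.map_mul] at hu
  refine le_antisymm ?_ (h2 Q hQ)
  rw [← hu]
  exact le_add_of_nonneg_right (h2 R h1)

end gauss

section radical

open UniqueFactorizationMonoid

theorem card_factors_le {F : Type*} [Field F] [DecidableEq F] {P : F[X]} (hP : P ≠ 0) :
    Multiset.card (normalizedFactors P) ≤ P.natDegree := by
  have h1 := prod_normalizedFactors hP
  have h2 : ∀ p ∈ normalizedFactors P, 1 ≤ p.natDegree := fun p hp =>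
    (irreducible_of_normalized_factor p hp).natDegree_pos
  have h3 : (normalizedFactors P).prod.natDegree = P.natDegree :=
    natDegree_eq_of_degree_eq (degree_eq_degree_of_associated h1)
  rw [← h3, natDegree_multiset_prod _ fun h => (ne_zero_of_mem_normalizedFactors h) rfl]
  have h4 := Multiset.card_nsmul_le_sum (s := (normalizedFactors P).map natDegree) (a := 1)
    (fun x hx => by
      obtain ⟨p, hp, rfl⟩ := Multiset.mem_map.1 hx
      exact h2 p hp)
  simpa using h4

theorem dvd_radical_pow {F : Type*} [Field F] [DecidableEq F] {P : F[X]} (hP : P ≠ 0) :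
    P ∣ radical P ^ P.natDegree := by
  rw [dvd_iff_normalizedFactors_le_normalizedFactors hP (pow_ne_zero _ radical_ne_zero),
    normalizedFactors_pow, Multiset.le_iff_count]
  intro p
  rw [Multiset.count_nsmul]
  by_cases hp : p ∈ normalizedFactors P
  · have h1 : p ∈ normalizedFactors (radical P) := by
      have h2 : p ∈ primeFactors (radical P) := by
        rw [primeFactors_radical]
        exact mem_primeFactors.2 hp
      exact mem_primeFactors.1 h2
    have h3 : 1 ≤ Multiset.count p (normalizedFactors (radical P)) :=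
      Multiset.one_le_count_iff_mem.2 h1
    calc Multiset.count p (normalizedFactors P) ≤ Multiset.card (normalizedFactors P) :=
          Multiset.count_le_card _ _
      _ ≤ P.natDegree := card_factors_le hP
      _ ≤ _ := Nat.le_mul_of_pos_right _ h3
  · rw [Multiset.count_eq_zero_of_notMem hp]
    exact Nat.zero_le _

/-- the radical of a polynomial with coefficients in the subfield `L` -/
theorem exists_radical {K : Type*} [Field K] [CharZero K] {k : Type*} [Field k] [Algebra k K]
    {L : IntermediateField k K} (P : K[X]) (hP : P ≠ 0) (hL : ∀ i, P.coeff i ∈ L) :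
    ∃ R : K[X], (∀ i, R.coeff i ∈ L) ∧ Squarefree R ∧ R.Separable ∧ R ∣ P ∧ P ∣ R ^ P.natDegree ∧
      (∃ S : K[X], (∀ i, S.coeff i ∈ L) ∧ R * S = P) ∧
      R.natDegree = (P.rootSet P.SplittingField).ncard := by
  classical
  obtain ⟨p, hp⟩ : ∃ p : L[X], p.map (algebraMap L K) = P := by
    have : P ∈ Polynomial.lifts (algebraMap L K) := by
      rw [lifts_iff_coeff_lifts]
      intro n
      exact ⟨⟨P.coeff n, hL n⟩, rfl⟩
    exact (mem_lifts P).1 this
  have hinj := (algebraMap L K).injective
  have : CharZero L := (algebraMap L K).charZero_iff hinj |>.2 inferInstance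
  have hp0 : p ≠ 0 := fun h => hP (by rw [← hp, h, Polynomial.map_zero])
  have hdeg : p.natDegree = P.natDegree := by rw [← hp, natDegree_map]
  have hsep : (radical p).Separable := PerfectField.separable_iff_squarefree.2 squarefree_radical
  obtain ⟨s, hs⟩ := radical_dvd_self (a := p)
  have hd1 : (radical p).map (algebraMap L K) ∣ P := by
    rw [← hp]
    exact Polynomial.map_dvd _ radical_dvd_self
  have hd2 : P ∣ ((radical p).map (algebraMap L K)) ^ P.natDegree := by
    rw [← Polynomial.map_pow, ← hdeg]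
    nth_rewrite 1 [← hp]
    exact Polynomial.map_dvd _ (dvd_radical_pow hp0)
  have hsep' : ((radical p).map (algebraMap L K)).Separable := hsep.map
  refine ⟨(radical p).map (algebraMap L K), fun i => ?_, hsep'.squarefree, hsep', hd1, hd2,
    ⟨s.map (algebraMap L K), fun i => ?_, ?_⟩, ?_⟩
  · rw [coeff_map]; exact ((radical p).coeff i).2
  · rw [coeff_map]; exact (s.coeff i).2
  · rw [← Polynomial.map_mul, ← hs, hp]
  · have hne : (radical p).map (algebraMap L K) ≠ 0 := fun h => hP (zero_dvd_iff.1 (h ▸ hd1))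
    have hspl : (((radical p).map (algebraMap L K)).map (algebraMap K P.SplittingField)).Splits :=
      (SplittingField.splits P).of_dvd (by
        rw [Polynomial.map_ne_zero_iff (algebraMap K P.SplittingField).injective]; exact hP)
        (Polynomial.map_dvd _ hd1)
    have h1 := card_rootSet_eq_natDegree hsep' hspl
    rw [← h1, ← Nat.card_eq_fintype_card, Nat.card_coe_set_eq]
    congr 1
    ext x
    rw [mem_rootSet, mem_rootSet]
    constructor
    · rintro ⟨-, h2⟩
      exact ⟨hP, aeval_eq_zero_of_dvd_aeval_eq_zero hd1 h2⟩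
    · rintro ⟨-, h2⟩
      refine ⟨hne, ?_⟩
      have h3 := aeval_eq_zero_of_dvd_aeval_eq_zero hd2 h2
      rw [map_pow] at h3
      exact eq_zero_of_pow_eq_zero h3

end radical

end Pool.Agent.H8.LG
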