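import Mathlib

/-!
# Project LG: orders of discriminants

`v` is a valuation of the field `K`. If the coefficients of a polynomial satisfy `v (ρ_k) + q ≤ v (ρ_(k+1)) + α`
then `(2 r - 2) v (ρ_0) + r (r - 1) q ≤ v (disc) + r (r - 1) α` (`discr_bound`); if they are integral then
`min (v (ρ_0), v (ρ_1)) ≤ v (disc)` (`discr_low`). Invariance of the discriminant under translations and, up to the
sign, under reversal (`discr_taylor`, `v_discr_reverse`).
-/

set_option autoImplicit false

open Polynomial

namespace Pool.Agent.H8.LG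

variable {K : Type*} [Field K] (v : AddValuation K (WithTop ℤ))

theorem ord_natCast (n : ℕ) : 0 ≤ v (n : K) := by
  induction n with
  | zero => rw [Nat.cast_zero, v.map_zero]; exact le_top
  | succ n ih =>
    rw [Nat.cast_succ]
    refine le_trans (le_min ih ?_) (v.map_add _ _)
    rw [v.map_one]

theorem ord_sum {ι : Type*} (s : Finset ι) (f : ι → K) {x : WithTop ℤ} (h : ∀ i ∈ s, x ≤ v (f i)) :
    x ≤ v (∑ i ∈ s, f i) := by
  classical
  induction s using Finset.induction_on with
  | empty => rw [Finset.sum_empty, v.map_zero]; exact le_top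
  | insert a s ha ih =>
    rw [Finset.sum_insert ha]
    exact le_trans (le_min (h a (Finset.mem_insert_self a s))
      (ih fun i hi => h i (Finset.mem_insert_of_mem hi))) (v.map_add _ _)

theorem ord_prod {ι : Type*} (s : Finset ι) (f : ι → K) : v (∏ i ∈ s, f i) = ∑ i ∈ s, v (f i) := by
  classical
  induction s using Finset.induction_on with
  | empty => simp
  | insert a s ha ih => rw [Finset.prod_insert ha, Finset.sum_insert ha, v.map_mul, ih]

theorem ord_neg_one_pow (n : ℕ) : v ((-1) ^ n) = 0 := by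
  rw [v.map_pow, v.map_neg, v.map_one]
  simp

theorem coe_sum {ι : Type*} (s : Finset ι) (f : ι → ℤ) :
    ((∑ i ∈ s, f i : ℤ) : WithTop ℤ) = ∑ i ∈ s, ((f i : ℤ) : WithTop ℤ) := by
  classical
  induction s using Finset.induction_on with
  | empty => simp
  | insert a s ha ih => rw [Finset.sum_insert ha, Finset.sum_insert ha, WithTop.coe_add, ih]

/-- determinants of matrices with entries of orders at least `a i + b j` -/
theorem det_bound {ι : Type*} [Fintype ι] [DecidableEq ι] (S : Matrix ι ι K) (a b : ι → ℤ)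
    (h : ∀ i j, ((a i + b j : ℤ) : WithTop ℤ) ≤ v (S i j)) :
    ((∑ i, a i + ∑ j, b j : ℤ) : WithTop ℤ) ≤ v S.det := by
  rw [Matrix.det_apply']
  refine ord_sum v _ _ fun σ _ => ?_
  have h1 : (0 : WithTop ℤ) ≤ v ((Equiv.Perm.sign σ : ℤ) : K) := by
    rcases Int.units_eq_one_or (Equiv.Perm.sign σ) with h | h <;> rw [h]
    · simp
    · simp [v.map_neg]
  rw [v.map_mul, ord_prod]
  refine le_trans ?_ (add_le_add h1 (Finset.sum_le_sum fun i _ => h (σ i) i))
  rw [zero_add, ← coe_sum, Finset.sum_add_distrib, Equiv.sum_comp σ a]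

theorem sum_a (n : ℕ) (α : ℤ) : 2 * ∑ i ∈ Finset.range n, (i : ℤ) * α = n * (n - 1) * α := by
  induction n with
  | zero => simp
  | succ n ih =>
    rw [Finset.sum_range_succ, mul_add, ih]
    push_cast
    ring

/-- the discriminant is homogeneous of degree `2 r - 2` and isobaric of weight `r (r - 1)` -/
theorem discr_bound (P : K[X]) (hr : 0 < P.natDegree) (c α : ℤ)
    (h : ∀ k : ℕ, ((c - k * α : ℤ) : WithTop ℤ) ≤ v (P.coeff k)) :
    (((2 * P.natDegree - 2) * c - P.natDegree * (P.natDegree - 1) * α : ℤ) : WithTop ℤ) ≤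
      v P.discr := by
  obtain ⟨N, hN⟩ : ∃ N, N = P.natDegree := ⟨_, rfl⟩
  let a : ℕ → ℤ := fun i => -(i * α) - if i = 2 * N - 2 then c - N * α else 0
  let b : ℕ → ℤ := fun j => if j < N - 1 then c + j * α else c + ((j - (N - 1) : ℕ) - 1 : ℤ) * α
  have key : ∀ i j : Fin (P.natDegree - 1 + P.natDegree),
      ((a i + b j : ℤ) : WithTop ℤ) ≤ v (P.sylvesterDeriv i j) := by
    intro i j
    have hn : ¬ P.natDegree = 0 := by omega
    rw [sylvesterDeriv, dif_neg hn]
    by_cases hi : i = ⟨2 * P.natDegree - 2, by omega⟩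
    · rw [hi, Matrix.updateRow_self]
      have ha : a (⟨2 * P.natDegree - 2, by omega⟩ : Fin (P.natDegree - 1 + P.natDegree)) =
          -((2 * N - 2 : ℕ) * α) - (c - N * α) := by
        simp only [a, ← hN, if_true]
      rw [ha]
      split_ifs with h1 h2
      · rw [v.map_one]
        have hb : b j = if N = 1 then c - α else c + (N - 2 : ℕ) * α := by
          simp only [b]
          by_cases h3 : N = 1
          · rw [if_pos h3, if_neg (by omega)]
            have : (j : ℕ) - (N - 1) = 0 := by omega
            rw [this]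
            ring
          · rw [if_neg h3, if_pos (by omega), h1, hN]
        rw [hb]
        have : -((2 * N - 2 : ℕ) * α) - (c - N * α) + (if N = 1 then c - α else c + (N - 2 : ℕ) * α) ≤ 0 := by
          split_ifs with h3
          · subst h3
            simp
          · obtain ⟨m, rfl⟩ : ∃ m, N = m + 2 := ⟨N - 2, by omega⟩
            have e1 : 2 * (m + 2) - 2 = 2 * m + 2 := by omega
            have e2 : m + 2 - 2 = m := by omega
            rw [e1, e2]
            push_cast
            apply le_of_eq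
            ring
        exact_mod_cast this
      · have hb : b j = c + ((N - 1 : ℕ) - 1 : ℤ) * α := by
          simp only [b]
          rw [if_neg (by omega)]
          have : (j : ℕ) - (N - 1) = N - 1 := by omega
          rw [this]
        rw [hb]
        refine le_trans ?_ (ord_natCast v _)
        have : -((2 * N - 2 : ℕ) * α) - (c - N * α) + (c + ((N - 1 : ℕ) - 1 : ℤ) * α) ≤ 0 := by
          obtain ⟨m, rfl⟩ : ∃ m, N = m + 1 := ⟨N - 1, by omega⟩
          have e1 : 2 * (m + 1) - 2 = 2 * m := by omega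
          have e2 : m + 1 - 1 = m := by omega
          rw [e1, e2]
          push_cast
          apply le_of_eq
          ring
        exact_mod_cast this
      · rw [v.map_zero]; exact le_top
    · rw [Matrix.updateRow_ne hi]
      have hi' : (i : ℕ) ≠ 2 * N - 2 := fun h3 => hi (Fin.ext (by
        change (i : ℕ) = 2 * P.natDegree - 2
        omega))
      have ha : a i = -(i * α) := by simp only [a, if_neg hi', sub_zero]
      rw [ha]
      refine Fin.addCases (fun j₁ => ?_) (fun j₁ => ?_) j
      · have hb : b (Fin.castAdd P.natDegree j₁) = c + (j₁ : ℕ) * α := by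
          simp only [b, Fin.val_castAdd]
          rw [if_pos (by omega)]
        rw [hb]
        simp only [sylvester, Matrix.of_apply, Fin.addCases_left]
        split_ifs with h1
        · refine le_trans ?_ (h _)
          rw [Set.mem_Icc] at h1
          rw [Nat.cast_sub h1.1]
          exact_mod_cast (by linarith : -((i : ℕ) * α) + (c + (j₁ : ℕ) * α) ≤
            c - (((i : ℕ) : ℤ) - ((j₁ : ℕ) : ℤ)) * α)
        · rw [v.map_zero]; exact le_top
      · have hb : b (Fin.natAdd (P.natDegree - 1) j₁) = c + ((j₁ : ℕ) - 1) * α := by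
          simp only [b, Fin.val_natAdd]
          rw [if_neg (by omega)]
          have : P.natDegree - 1 + (j₁ : ℕ) - (N - 1) = j₁ := by omega
          rw [this]
        rw [hb]
        simp only [sylvester, Matrix.of_apply, Fin.addCases_right]
        split_ifs with h1
        · rw [coeff_derivative, v.map_mul]
          rw [Set.mem_Icc] at h1
          have h2 := ord_natCast v ((i : ℕ) - (j₁ : ℕ) + 1)
          push_cast at h2
          refine le_trans ?_ (add_le_add (h _) h2)
          rw [add_zero]
          refine WithTop.coe_le_coe.2 ?_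
          push_cast [Nat.cast_sub h1.1]
          linarith
        · rw [v.map_zero]; exact le_top
  have h1 := det_bound v P.sylvesterDeriv (fun i => a i) (fun j => b j) key
  rw [discr, v.map_mul, ord_neg_one_pow, add_zero]
  refine le_trans ?_ h1
  rw [Fin.sum_univ_eq_sum_range a, Fin.sum_univ_eq_sum_range b, ← hN]
  obtain ⟨m, rfl⟩ : ∃ m, N = m + 1 := ⟨N - 1, by omega⟩
  have e0 : m + 1 - 1 + (m + 1) = m + (m + 1) := by omega
  have ha : 2 * ∑ i ∈ Finset.range (m + 1 - 1 + (m + 1)), a i =
      -((2 * m + 1) * (2 * m) * α) - 2 * (c - (m + 1) * α) := by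
    have e1 : ∑ i ∈ Finset.range (m + 1 - 1 + (m + 1)), a i =
        -∑ i ∈ Finset.range (2 * m + 1), (i : ℤ) * α - (c - (m + 1) * α) := by
      have e2 : m + 1 - 1 + (m + 1) = 2 * m + 1 := by omega
      rw [e2, ← Finset.sum_neg_distrib]
      simp only [a]
      rw [Finset.sum_sub_distrib]
      congr 1
      have e3 : 2 * (m + 1) - 2 = 2 * m := by omega
      rw [e3, Finset.sum_ite_eq' (Finset.range (2 * m + 1)) (2 * m),
        if_pos (Finset.mem_range.2 (by omega))]
      push_cast
      ring
    rw [e1]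
    have := sum_a (2 * m + 1) α
    push_cast at this
    linarith
  have hb : 2 * ∑ j ∈ Finset.range (m + 1 - 1 + (m + 1)), b j =
      2 * (m * c) + m * (m - 1) * α + 2 * ((m + 1) * (c - α)) + (m + 1) * m * α := by
    rw [e0, Finset.sum_range_add]
    have e1 : ∑ x ∈ Finset.range m, b x = m * c + ∑ x ∈ Finset.range m, (x : ℤ) * α := by
      rw [Finset.sum_congr rfl fun x hx => show b x = c + x * α by
        simp only [b]
        rw [if_pos (by have := Finset.mem_range.1 hx; omega)], Finset.sum_add_distrib]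
      simp
    have e2 : ∑ x ∈ Finset.range (m + 1), b (m + x) =
        (m + 1) * (c - α) + ∑ x ∈ Finset.range (m + 1), (x : ℤ) * α := by
      rw [Finset.sum_congr rfl fun x hx => show b (m + x) = (c - α) + x * α by
        simp only [b]
        rw [if_neg (by omega)]
        have : m + x - (m + 1 - 1) = x := by omega
        rw [this]
        ring, Finset.sum_add_distrib]
      simp only [Finset.sum_const, Finset.card_range, nsmul_eq_mul]
      push_cast
      ring
    rw [e1, e2]
    have h3 := sum_a m α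
    have h4 := sum_a (m + 1) α
    push_cast at h4
    linarith
  have hab : (∑ i ∈ Finset.range (m + 1 - 1 + (m + 1)), a i) +
      ∑ j ∈ Finset.range (m + 1 - 1 + (m + 1)), b j =
      (2 * ((m + 1 : ℕ) : ℤ) - 2) * c - ((m + 1 : ℕ) : ℤ) * (((m + 1 : ℕ) : ℤ) - 1) * α := by
    rw [e0] at ha hb ⊢
    push_cast
    linarith
  rw [hab]

/-- the discriminant of a polynomial with integral coefficients is integral -/
theorem discr_nonneg (P : K[X]) (hr : 0 < P.natDegree) (h : ∀ k, 0 ≤ v (P.coeff k)) :
    0 ≤ v P.discr := by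
  have := discr_bound v P hr 0 0 fun k => by simpa using h k
  simpa using this

/-- the discriminant is in the ideal of the two lowest coefficients -/
theorem discr_low (P : K[X]) (hr : 2 ≤ P.natDegree) (h : ∀ k, 0 ≤ v (P.coeff k)) :
    min (v (P.coeff 0)) (v (P.coeff 1)) ≤ v P.discr := by
  have h0 : ∀ i j : Fin (P.natDegree - 1 + P.natDegree), 0 ≤ v (P.sylvesterDeriv i j) := by
    intro i j
    rw [sylvesterDeriv, dif_neg (by omega)]
    by_cases hi : i = ⟨2 * P.natDegree - 2, by omega⟩
    · rw [hi, Matrix.updateRow_self]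
      split_ifs
      · rw [v.map_one]
      · exact ord_natCast v _
      · rw [v.map_zero]; exact le_top
    · rw [Matrix.updateRow_ne hi]
      refine Fin.addCases (fun j₁ => ?_) (fun j₁ => ?_) j
      · simp only [sylvester, Matrix.of_apply, Fin.addCases_left]
        split_ifs
        · exact h _
        · rw [v.map_zero]; exact le_top
      · simp only [sylvester, Matrix.of_apply, Fin.addCases_right]
        split_ifs
        · rw [coeff_derivative, v.map_mul]
          have h2 := ord_natCast v ((i : ℕ) - (j₁ : ℕ) + 1)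
          push_cast at h2
          exact add_nonneg (h _) h2
        · rw [v.map_zero]; exact le_top
  have h1 : ∀ i j : Fin (P.natDegree - 1 + P.natDegree), (i : ℕ) = 0 →
      min (v (P.coeff 0)) (v (P.coeff 1)) ≤ v (P.sylvesterDeriv i j) := by
    intro i j hi0
    rw [sylvesterDeriv, dif_neg (by omega)]
    have hi : i ≠ ⟨2 * P.natDegree - 2, by omega⟩ := fun h => by
      have := congrArg Fin.val h
      change (i : ℕ) = 2 * P.natDegree - 2 at this
      omega
    rw [Matrix.updateRow_ne hi]
    refine Fin.addCases (fun j₁ => ?_) (fun j₁ => ?_) j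
    · simp only [sylvester, Matrix.of_apply, Fin.addCases_left]
      split_ifs
      · rw [hi0, Nat.zero_sub]; exact min_le_left _ _
      · rw [v.map_zero]; exact le_top
    · simp only [sylvester, Matrix.of_apply, Fin.addCases_right]
      split_ifs
      · rw [coeff_derivative, hi0, Nat.zero_sub]
        simp
      · rw [v.map_zero]; exact le_top
  have h2 : ∀ c : ℤ, (c : WithTop ℤ) ≤ min (v (P.coeff 0)) (v (P.coeff 1)) →
      (c : WithTop ℤ) ≤ v P.discr := by
    intro c hc
    have h3 := det_bound v P.sylvesterDeriv (fun i => if (i : ℕ) = 0 then c else 0) (fun _ => 0)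
      (fun i j => by
        split_ifs with hi
        · rw [add_zero]; exact hc.trans (h1 i j hi)
        · rw [add_zero]; exact h0 i j)
    rw [discr, v.map_mul, ord_neg_one_pow, add_zero]
    refine le_trans (le_of_eq ?_) h3
    rw [Finset.sum_const_zero, add_zero]
    congr 1
    have hz : (⟨0, by omega⟩ : Fin (P.natDegree - 1 + P.natDegree)) ∈
      (Finset.univ : Finset (Fin (P.natDegree - 1 + P.natDegree))) := Finset.mem_univ _
    rw [Finset.sum_eq_single_of_mem _ hz fun b _ hb => if_neg fun h => hb (Fin.ext h)]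
    simp
  obtain ht | ⟨c, hc⟩ : min (v (P.coeff 0)) (v (P.coeff 1)) = ⊤ ∨
      ∃ c : ℤ, min (v (P.coeff 0)) (v (P.coeff 1)) = c := by
    induction min (v (P.coeff 0)) (v (P.coeff 1)) using WithTop.recTopCoe with
    | top => exact Or.inl rfl
    | coe c => exact Or.inr ⟨c, rfl⟩
  · obtain ht' | ⟨d, hd⟩ : v P.discr = ⊤ ∨ ∃ c : ℤ, v P.discr = c := by
      induction v P.discr using WithTop.recTopCoe with
      | top => exact Or.inl rfl
      | coe c => exact Or.inr ⟨c, rfl⟩
    · rw [ht']; exact le_top
    · have := h2 (d + 1) (by rw [ht]; exact le_top)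
      rw [hd, WithTop.coe_le_coe] at this
      omega
  · rw [hc]; exact h2 c (by rw [hc])

section

variable [CharZero K]

theorem natDegree_deriv (P : K[X]) : (derivative P).natDegree = P.natDegree - 1 := by
  by_cases hP : P.natDegree = 0
  · rw [hP, eq_C_of_natDegree_eq_zero hP, derivative_C, natDegree_zero]
  · exact natDegree_eq_of_degree_eq_some (degree_derivative (by omega))

theorem discr_taylor (P : K[X]) (w : K) : (taylor w P).discr = P.discr := by
  by_cases hP : P.natDegree = 0
  · rw [eq_C_of_natDegree_eq_zero hP, taylor_C]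
  have h1 : 0 < P.degree := natDegree_pos_iff_degree_pos.1 (by omega)
  have h2 : 0 < (taylor w P).degree := natDegree_pos_iff_degree_pos.1 (by rw [natDegree_taylor]; omega)
  have h3 := resultant_deriv h1
  have h4 := resultant_deriv h2
  have h5 : derivative (taylor w P) = taylor w (derivative P) := by
    rw [taylor_apply, derivative_comp, taylor_apply]
    simp
  rw [h5, natDegree_taylor, leadingCoeff_taylor] at h4
  have h6 := resultant_taylor P (derivative P) w
  rw [natDegree_taylor, natDegree_taylor, natDegree_deriv] at h6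
  rw [h6, h3] at h4
  have h7 : (-1 : K) ^ (P.natDegree * (P.natDegree - 1) / 2) * P.leadingCoeff ≠ 0 :=
    mul_ne_zero (pow_ne_zero _ (by norm_num)) (leadingCoeff_ne_zero.2 fun h => hP (by rw [h]; simp))
  exact (mul_left_cancel₀ h7 h4).symm

theorem discr_C_mul (P : K[X]) {c : K} (hc : c ≠ 0) :
    (C c * P).discr = c ^ (2 * P.natDegree - 2) * P.discr := by
  by_cases hP : P.natDegree = 0
  · rw [hP, eq_C_of_natDegree_eq_zero hP, ← C_mul, discr_C, discr_C]
    simp
  have h1 : 0 < P.degree := natDegree_pos_iff_degree_pos.1 (by omega)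
  have hd : (C c * P).natDegree = P.natDegree := natDegree_C_mul hc
  have h2 : 0 < (C c * P).degree := natDegree_pos_iff_degree_pos.1 (by rw [hd]; omega)
  have h3 := resultant_deriv h1
  have h4 := resultant_deriv h2
  rw [derivative_C_mul, hd, resultant_C_mul_left, resultant_C_mul_right, h3, leadingCoeff_mul,
    leadingCoeff_C] at h4
  have h7 : (-1 : K) ^ (P.natDegree * (P.natDegree - 1) / 2) * (c * P.leadingCoeff) ≠ 0 :=
    mul_ne_zero (pow_ne_zero _ (by norm_num))
      (mul_ne_zero hc (leadingCoeff_ne_zero.2 fun h => hP (by rw [h]; simp)))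
  refine mul_left_cancel₀ h7 ?_
  rw [← h4]
  obtain ⟨m, hm⟩ : ∃ m, P.natDegree = m + 1 := ⟨P.natDegree - 1, by omega⟩
  rw [hm]
  have e1 : m + 1 - 1 = m := by omega
  have e2 : 2 * (m + 1) - 2 = 2 * m := by omega
  rw [e1, e2]
  ring

end

/-! ### Reversal -/

/-- the resultant of the reflected polynomials -/
theorem resultant_reflect (f g : K[X]) (m n : ℕ) :
    ∃ k : ℕ, resultant (f.reflect m) (g.reflect n) m n = (-1) ^ k * resultant f g m n := by
  let τ : Equiv.Perm (Fin (m + n)) :=
    (finSumFinEquiv.symm.trans (Equiv.sumCongr Fin.revPerm Fin.revPerm)).trans finSumFinEquiv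
  have hl : ∀ j₁ : Fin m, τ (Fin.castAdd n j₁) = Fin.castAdd n (Fin.rev j₁) := by
    intro j₁
    simp [τ]
  have hr : ∀ j₁ : Fin n, τ (Fin.natAdd m j₁) = Fin.natAdd m (Fin.rev j₁) := by
    intro j₁
    simp [τ]
  have h1 : sylvester (f.reflect m) (g.reflect n) m n =
      ((sylvester f g m n).submatrix Fin.revPerm id).submatrix id τ := by
    ext i j
    rw [Matrix.submatrix_apply, Matrix.submatrix_apply]
    simp only [id]
    refine Fin.addCases (fun j₁ => ?_) (fun j₁ => ?_) j
    · rw [hl]
      simp only [sylvester, Matrix.of_apply, Fin.addCases_left, Fin.revPerm_apply, Fin.val_rev,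
        Set.mem_Icc]
      have hi := i.isLt
      have hj := j₁.isLt
      by_cases h : (j₁ : ℕ) ≤ i ∧ (i : ℕ) ≤ j₁ + n
      · rw [if_pos h, if_pos (by omega), coeff_reflect, revAt_le (by omega)]
        congr 1
        omega
      · rw [if_neg h, if_neg (by omega)]
    · rw [hr]
      simp only [sylvester, Matrix.of_apply, Fin.addCases_right, Fin.revPerm_apply, Fin.val_rev,
        Set.mem_Icc]
      have hi := i.isLt
      have hj := j₁.isLt
      by_cases h : (j₁ : ℕ) ≤ i ∧ (i : ℕ) ≤ j₁ + m
      · rw [if_pos h, if_pos (by omega), coeff_reflect, revAt_le (by omega)]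
        congr 1
        omega
      · rw [if_neg h, if_neg (by omega)]
  have hs : ∀ σ : Equiv.Perm (Fin (m + n)), ∃ k : ℕ, (((Equiv.Perm.sign σ : ℤˣ) : ℤ) : K) = (-1) ^ k := by
    intro σ
    rcases Int.units_eq_one_or (Equiv.Perm.sign σ) with h | h <;> rw [h]
    · exact ⟨0, by simp⟩
    · exact ⟨1, by simp⟩
  obtain ⟨k1, hk1⟩ := hs Fin.revPerm
  obtain ⟨k2, hk2⟩ := hs τ
  refine ⟨k2 + k1, ?_⟩
  rw [resultant, h1, Matrix.det_permute', Matrix.det_permute, hk1, hk2, resultant]
  ring

theorem reflect_deriv (P : K[X]) (n : ℕ) (hn : P.natDegree ≤ n + 1) :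
    (derivative (P.reflect (n + 1))).reflect n = C ((n + 1 : ℕ) : K) * P - X * derivative P := by
  ext i
  rw [coeff_reflect, coeff_derivative, coeff_reflect, coeff_sub, coeff_C_mul]
  by_cases hi : i ≤ n
  · rw [revAt_le hi, revAt_le (by omega)]
    have e1 : n + 1 - (n - i + 1) = i := by omega
    rw [e1]
    rcases i with _ | i
    · simp
      ring
    · rw [coeff_X_mul, coeff_derivative]
      obtain ⟨m, rfl⟩ : ∃ m, n = m + (i + 1) := ⟨n - (i + 1), by omega⟩
      have e2 : m + (i + 1) - (i + 1) = m := by omega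
      rw [e2]
      push_cast
      ring
  · have h1 : revAt n i = i := by
      rw [← revAtFun_eq, revAtFun, if_neg hi]
    rw [h1]
    obtain ⟨m, rfl⟩ : ∃ m, i = m + 1 := ⟨i - 1, by omega⟩
    rw [coeff_X_mul, coeff_derivative]
    have h2 : revAt (n + 1) (m + 1 + 1) = m + 1 + 1 := by
      rw [← revAtFun_eq, revAtFun, if_neg (by omega)]
    rw [h2, coeff_eq_zero_of_natDegree_lt (by omega : P.natDegree < m + 1 + 1), zero_mul]
    by_cases h3 : m = n
    · subst h3
      push_cast
      ring
    · rw [coeff_eq_zero_of_natDegree_lt (by omega : P.natDegree < m + 1)]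
      ring

/-- the discriminant of the reversed polynomial -/
theorem discr_reverse [CharZero K] (P : K[X]) (h0 : P.coeff 0 ≠ 0) :
    ∃ k : ℕ, P.reverse.discr = (-1) ^ k * P.discr := by
  by_cases hP : P.natDegree = 0
  · refine ⟨0, ?_⟩
    rw [eq_C_of_natDegree_eq_zero hP, reverse_C]
    simp
  obtain ⟨n, hn⟩ : ∃ n, P.natDegree = n + 1 := ⟨P.natDegree - 1, by omega⟩
  have hP0 : P ≠ 0 := fun h => h0 (by rw [h, coeff_zero])
  have hl : P.coeff (n + 1) ≠ 0 := by
    rw [← hn, coeff_natDegree]
    exact leadingCoeff_ne_zero.2 hP0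
  have hrev : P.reverse = P.reflect (n + 1) := by rw [reverse, hn]
  have hrd : P.reverse.natDegree = n + 1 := by
    rw [reverse_natDegree, natTrailingDegree_eq_zero.2 (Or.inr h0), hn, Nat.sub_zero]
  have hrr : (P.reverse).reflect (n + 1) = P := by
    ext i
    rw [coeff_reflect, hrev, coeff_reflect, revAt_invol]
  have h1 := resultant_deriv (f := P) (natDegree_pos_iff_degree_pos.1 (by omega))
  have h2 := resultant_deriv (f := P.reverse) (natDegree_pos_iff_degree_pos.1 (by omega))
  rw [hn] at h1
  rw [hrd] at h2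
  have hlead : P.reverse.leadingCoeff = P.coeff 0 := by
    rw [leadingCoeff, hrd, hrev, coeff_reflect, revAt_le le_rfl, Nat.sub_self]
  have e1 : n + 1 - 1 = n := by omega
  rw [e1] at h1 h2
  obtain ⟨k1, hk1⟩ := resultant_reflect P.reverse (derivative P.reverse) (n + 1) n
  rw [hrr, hrev, reflect_deriv P n (by omega), ← hrev, h2, hlead] at hk1
  -- `Res (P, (n+1) P - X P')`
  have hQ : (C ((n + 1 : ℕ) : K) * P - X * derivative P).natDegree ≤ n := by
    rw [natDegree_le_iff_coeff_eq_zero]
    intro i hi
    obtain ⟨m, rfl⟩ : ∃ m, i = m + 1 := ⟨i - 1, by omega⟩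
    rw [coeff_sub, coeff_C_mul, coeff_X_mul, coeff_derivative]
    by_cases h3 : m = n
    · subst h3
      push_cast
      ring
    · rw [coeff_eq_zero_of_natDegree_lt (by omega : P.natDegree < m + 1)]
      ring
  have h3 := resultant_add_right_deg P (C ((n + 1 : ℕ) : K) * P - X * derivative P) (n + 1) n 1 hQ
  have h4 : C ((n + 1 : ℕ) : K) * P - X * derivative P =
      C (-1) * (X * derivative P) + P * C ((n + 1 : ℕ) : K) := by
    rw [C_neg, C_1]
    ring
  have h5 := resultant_add_mul_right P (C (-1) * (X * derivative P)) (C ((n + 1 : ℕ) : K)) (n + 1)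
    (n + 1) (by rw [natDegree_C]; omega) (by omega)
  rw [← h4, resultant_C_mul_right] at h5
  have hdd : (derivative P).natDegree = n := by rw [natDegree_deriv, hn]; omega
  have h6 := resultant_mul_right P X (derivative P) (n + 1) (by omega)
  rw [natDegree_X, hdd, add_comm 1 n] at h6
  have h7 := resultant_X_pow_right P (n + 1) 1 (by omega)
  rw [pow_one, pow_one] at h7
  rw [h6, h7, h1] at h5
  rw [h5, pow_one] at h3
  have h8 : P.leadingCoeff = P.coeff (n + 1) := by rw [leadingCoeff, hn]
  rw [h8] at h3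
  have hs : ∀ k : ℕ, ((-1 : K) ^ k) * (-1) ^ k = 1 := fun k => by
    rw [← mul_pow]; simp
  -- assemble
  refine ⟨k1 + ((n + 1) * n / 2) + ((n + 1) * n / 2) + (n + 1) + (n + 1) * 1, ?_⟩
  have hc : P.coeff (n + 1) * P.coeff 0 ≠ 0 := mul_ne_zero hl h0
  refine mul_left_cancel₀ hc ?_
  have h9 : (-1 : K) ^ k1 * ((-1) ^ ((n + 1) * n / 2) * P.coeff 0 * P.reverse.discr) =
      resultant P (C ((n + 1 : ℕ) : K) * P - X * derivative P) (n + 1) n := hk1.symm
  have h10 : P.coeff 0 * P.reverse.discr = (-1 : K) ^ ((n + 1) * n / 2) * ((-1) ^ k1 *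
      resultant P (C ((n + 1 : ℕ) : K) * P - X * derivative P) (n + 1) n) := by
    rw [← h9]
    have a1 := hs k1
    have a2 := hs ((n + 1) * n / 2)
    linear_combination (-(P.coeff 0 * P.reverse.discr) * (-1) ^ ((n + 1) * n / 2) * (-1) ^ ((n + 1) * n / 2)) * a1 - (P.coeff 0 * P.reverse.discr) * a2
  rw [mul_assoc, h10]
  linear_combination (-(-1 : K) ^ ((n + 1) * n / 2) * (-1) ^ k1) * h3

/-- the numerical inequalities -/
theorem num_bound {r D V0 V1 g q A : ℤ} (hr : 3 ≤ r) (hD : 1 ≤ D) (hg : 0 ≤ g)
    (hq : g ≤ q)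
    (ha : (2 * r - 2) * (D * V0) + r * (r - 1) * q ≤ D * g + r * (r - 1) * (D * A))
    (hb : V0 ≤ g ∨ V1 ≤ g) (hI : D * V0 + q ≤ D * V1 + D * A) :
    0 ≤ g - (2 * r - 2) * V0 + r * (r - 1) * A ∧
      r * (r - 1) * q ≤ D * (g - (2 * r - 2) * V0 + r * (r - 1) * A) ∧
      A ≤ (1 + D) * (g - (2 * r - 2) * V0 + r * (r - 1) * A) := by
  obtain ⟨X, hX⟩ : ∃ X, X = g - (2 * r - 2) * V0 + r * (r - 1) * A := ⟨_, rfl⟩
  have h1 : r * (r - 1) * q ≤ D * X := by
    rw [hX]
    linarith
  have h0 : 0 ≤ q := hg.trans hq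
  have h2 : 0 ≤ r * (r - 1) * q := mul_nonneg (mul_nonneg (by linarith) (by linarith)) h0
  have h3 : 0 ≤ X := by
    by_contra h
    push Not at h
    nlinarith
  have h4 : (2 * r - 3) * q ≤ D * X := by
    refine le_trans (mul_le_mul_of_nonneg_right ?_ h0) h1
    nlinarith
  have h5 : (2 * r - 3) * g ≤ (2 * r - 3) * q := mul_le_mul_of_nonneg_left hq (by linarith)
  have h6 : 0 ≤ (1 + D) * X := mul_nonneg (by linarith) h3
  refine ⟨hX ▸ h3, hX ▸ h1, ?_⟩
  rw [← hX]
  rcases le_or_gt A 0 with hA | hA
  · linarith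
  rcases hb with hb | hb
  · have h7 : r * (r - 1) * A ≤ X + (2 * r - 3) * g := by
      have : (2 * r - 2) * V0 ≤ (2 * r - 2) * g := mul_le_mul_of_nonneg_left hb (by linarith)
      linarith
    have h8 : 1 * A ≤ r * (r - 1) * A := mul_le_mul_of_nonneg_right (by nlinarith) hA.le
    linarith
  · have h7 : D * V1 ≤ D * g := mul_le_mul_of_nonneg_left hb (by linarith)
    have h8 : V0 ≤ g + A := by
      by_contra h
      push Not at h
      have : D * (g + A) < D * V0 := mul_lt_mul_of_pos_left h (by linarith)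
      linarith
    have h9 : (2 * r - 2) * V0 ≤ (2 * r - 2) * (g + A) := mul_le_mul_of_nonneg_left h8 (by linarith)
    have h10 : (r - 1) * (r - 2) * A ≤ X + (2 * r - 3) * g := by
      rw [hX]
      linarith
    have h11 : 1 * A ≤ (r - 1) * (r - 2) * A := mul_le_mul_of_nonneg_right (by nlinarith) hA.le
    linarith

theorem v_discr_reverse [CharZero K] (P : K[X]) (h0 : P.coeff 0 ≠ 0) :
    v P.reverse.discr = v P.discr := by
  obtain ⟨k, hk⟩ := discr_reverse P h0
  rw [hk, v.map_mul, ord_neg_one_pow, zero_add]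

/-! ### The main bound -/

theorem exists_scale (D : ℕ) (hD : 0 < D) :
    ∃ v' : AddValuation K (WithTop ℤ), ∀ x, v' x = D • v x := by
  refine ⟨v.map (nsmulAddMonoidHom D) ?_ ?_, fun x => rfl⟩
  · change D • (⊤ : WithTop ℤ) = ⊤
    obtain ⟨m, rfl⟩ : ∃ m, D = m + 1 := ⟨D - 1, by omega⟩
    rw [succ_nsmul, WithTop.add_top]
  · intro a b hab
    exact nsmul_le_nsmul_right hab D

theorem ord_taylor_nonneg (P : K[X]) (h : ∀ k, 0 ≤ v (P.coeff k)) {w : K} (hw : 0 ≤ v w) (k : ℕ) :
    0 ≤ v ((taylor w P).coeff k) := by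
  rw [taylor_coeff, hasseDeriv_apply, eval_sum]
  refine ord_sum v _ _ fun i _ => ?_
  beta_reduce
  rw [eval_monomial, v.map_mul, v.map_mul, v.map_pow]
  exact add_nonneg (add_nonneg (ord_natCast v _) (h i)) (nsmul_nonneg hw _)

/-- The main bound. `P` has integral coefficients and degree at least three, `w` is integral, the Taylor
coefficients `ρ_k` of `P` at `w` satisfy `D v (ρ_k) + q ≤ D v (ρ_(k+1)) + D A`, and `v (disc P) ≤ q`. -/
theorem disc_main [CharZero K] (P : K[X]) (hr : 3 ≤ P.natDegree) (h : ∀ k, 0 ≤ v (P.coeff k)) {w : K}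
    (hw : 0 ≤ v w) {D : ℕ} (hD : 0 < D) {A q V g : ℤ} (hV : v (P.eval w) = V)
    (hg : v P.discr = g) (hq : g ≤ q)
    (hI : ∀ k, D • v ((taylor w P).coeff k) + (q : WithTop ℤ) ≤
      D • v ((taylor w P).coeff (k + 1)) + ((D * A : ℤ) : WithTop ℤ)) :
    0 ≤ g - (2 * P.natDegree - 2) * V + P.natDegree * (P.natDegree - 1) * A ∧
      P.natDegree * (P.natDegree - 1) * q ≤
        D * (g - (2 * P.natDegree - 2) * V + P.natDegree * (P.natDegree - 1) * A) ∧
      A ≤ (1 + D) * (g - (2 * P.natDegree - 2) * V + P.natDegree * (P.natDegree - 1) * A) := by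
  obtain ⟨v', hv'⟩ := exists_scale v D hD
  have hV0 : v ((taylor w P).coeff 0) = V := by rw [taylor_coeff_zero, hV]
  have hint := fun k => ord_taylor_nonneg v P h hw k
  have hn : (taylor w P).natDegree = P.natDegree := natDegree_taylor _ _
  have hdt := discr_taylor P w
  have hnz : ∀ x : ℤ, D • (x : WithTop ℤ) = ((D * x : ℤ) : WithTop ℤ) := by
    intro x
    rw [← WithTop.coe_nsmul, nsmul_eq_mul]
  -- (I)
  have h1 : ∀ k : ℕ, ((D * V : ℤ) : WithTop ℤ) ≤
      D • v ((taylor w P).coeff k) + ((k * (D * A - q) : ℤ) : WithTop ℤ) := by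
    intro k
    induction k with
    | zero => rw [hV0, hnz]; simp
    | succ k ih =>
      refine ih.trans ?_
      have h2 := hI k
      generalize D • v ((taylor w P).coeff k) = a at h2 ⊢
      generalize D • v ((taylor w P).coeff (k + 1)) = b at h2 ⊢
      induction b using WithTop.recTopCoe with
      | top => simp
      | coe b =>
        induction a using WithTop.recTopCoe with
        | top =>
          rw [WithTop.top_add, ← WithTop.coe_add] at h2
          exact absurd h2 (not_le.2 (WithTop.coe_lt_top _))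
        | coe a =>
          rw [← WithTop.coe_add, ← WithTop.coe_add, WithTop.coe_le_coe] at h2
          rw [← WithTop.coe_add, ← WithTop.coe_add, WithTop.coe_le_coe]
          push_cast
          linarith
  have h2 := discr_bound v' (taylor w P) (by omega) (D * V) (D * A - q) fun k => by
    rw [hv']
    have h3 := h1 k
    generalize D • v ((taylor w P).coeff k) = a at h3 ⊢
    induction a using WithTop.recTopCoe with
    | top => exact le_top
    | coe a =>
      rw [← WithTop.coe_add, WithTop.coe_le_coe] at h3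
      rw [WithTop.coe_le_coe]
      linarith
  rw [hv', hdt, hn, hg, hnz, WithTop.coe_le_coe] at h2
  have h3 := discr_low v (taylor w P) (by omega) hint
  rw [hdt, hV0, hg] at h3
  have h4 := hI 0
  rw [hV0, hnz] at h4
  have h5 : 0 ≤ g := by
    have := discr_nonneg v P (by omega) h
    rw [hg] at this
    exact_mod_cast this
  have hr' : (3 : ℤ) ≤ P.natDegree := by exact_mod_cast hr
  have hD' : (1 : ℤ) ≤ D := by exact_mod_cast hD
  rw [min_le_iff] at h3
  obtain ht | ⟨V1, hV1⟩ : v ((taylor w P).coeff (0 + 1)) = ⊤ ∨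
      ∃ c : ℤ, v ((taylor w P).coeff (0 + 1)) = c := by
    induction v ((taylor w P).coeff (0 + 1)) using WithTop.recTopCoe with
    | top => exact Or.inl rfl
    | coe c => exact Or.inr ⟨c, rfl⟩
  · rw [zero_add] at ht
    rw [ht, WithTop.coe_le_coe] at h3
    have h6 : V ≤ g := by
      rcases h3 with h3 | h3
      · exact h3
      · exact absurd h3 (by simp)
    have h7 : 1 * q ≤ (D : ℤ) * q := mul_le_mul_of_nonneg_right hD' (h5.trans hq)
    exact num_bound (V1 := V + q - A) hr' hD' h5 hq (by linarith) (Or.inl h6) (by linarith)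
  · rw [hV1, hnz, ← WithTop.coe_add, ← WithTop.coe_add, WithTop.coe_le_coe] at h4
    rw [zero_add] at hV1
    rw [hV1, WithTop.coe_le_coe, WithTop.coe_le_coe] at h3
    exact num_bound (V1 := V1) hr' hD' h5 hq (by linarith) h3 h4

end Pool.Agent.H8.LG
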